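import Pool.Agent.helper17.MK.Spec

/-!
# Four clusters: row PC
-/

set_option autoImplicit false

namespace Pool.Agent.MK

open Finset Real Pool.Agent.helper39.MT Pool.Agent.helper85.FC

theorem PC_lam0 (n : ℕ) : 0 ≤ lam n := by
  unfold lam
  split_ifs
  · exact Real.log_natCast_nonneg n
  · exact le_rfl

theorem PC_avoid {k D₀ W : ℕ} {A B : Fin k → ℕ} (h : Std k D₀ A B W) {a : ℝ} {R n : ℕ}
    (ha : 1 ≤ a) (hR : R = ⌊Real.exp (a / 4)⌋₊) (hn : 0 < n) (hw : wt 1 a n ≠ 0) (i : Fin k)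
    (hi : (A i * n + B i).Prime) (p : PS W R) : pat A B (PS W R) n p ≠ some i := by
  intro hpat
  have hpp := mem_PS.1 p.2
  have h6 := (F1_wt_support hn hw).1
  have h7 : (R : ℝ) < n := by
    refine lt_of_le_of_lt ?_ h6
    rw [hR]
    refine (Nat.floor_le (Real.exp_pos _).le).trans (Real.exp_le_exp.2 ?_)
    linarith
  have h7' : R < n := by exact_mod_cast h7
  have h8 := F1_pat hpat
  rw [Nat.prime_dvd_prime_iff_eq hpp.2.1 hi] at h8
  have h9 : n ≤ A i * n := Nat.le_mul_of_pos_left n (h.Apos i)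
  have h10 := hpp.1
  omega

theorem PC (h1 : PW_stmt) : PC_stmt := by
  intro k D₀ W A B h a a' R n ha hR hn ha' hla y ζ m m' l₀ w v x x' L L' hmm hw1 hwv hvx hxx hl₀ hT hz
  obtain ⟨e, he⟩ : ∃ e, e = pat A B (PS W R) n := ⟨_, rfl⟩
  rw [← he]
  obtain ⟨hX0, hX1, hX2⟩ := h1 (PS W R) k (prP W R) ζ l₀ w v x x' L L' m m' e hmm hw1 hwv hvx hxx
    hl₀ hT
  obtain ⟨U, hU⟩ : ∃ U, U = XA (prP W R) ζ l₀ (lM L x) w (RLS.PP w x') m m' e := ⟨_, rfl⟩
  obtain ⟨T, hTT⟩ : ∃ T, T = XB (prP W R) ζ l₀ (RLS.lam true L') w (RLS.PP w v) (RLS.PP x x') m m' e :=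
    ⟨_, rfl⟩
  rw [← hU, ← hTT]
  rw [← hTT] at hX0
  rw [← hU, ← hTT] at hX1
  rw [← hU] at hX2
  by_cases hw : wt 1 a n = 0
  · rw [hw]
    simp
  have hwt : 0 ≤ wt 1 a n := Pool.Agent.helper85.MT.wt_nonneg _ _ _
  have hlm := hla hw m
  have hlm' := hla hw m'
  have hl0 := PC_lam0 (A m * n + B m)
  have hl0' := PC_lam0 (A m' * n + B m')
  have hav : ∀ i, (A i * n + B i).Prime → ∀ p, e p ≠ some i := by
    intro i hi p
    rw [he]
    exact PC_avoid h ha hR hn hw i hi p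
  by_cases hm : (A m * n + B m).Prime
  · have hy1 : 0 ≤ U + T / 2 := hX1 (hav m hm)
    have key : a' * (wt 1 a n * lam (A m * n + B m)) * (U + T / 2) ≤
        a' * (wt 1 a n * lam (A m * n + B m) * U) + a' ^ 2 / 2 * (wt 1 a n * T) := by
      have h2 : 0 ≤ a' * wt 1 a n * T * (a' - lam (A m * n + B m)) :=
        mul_nonneg (mul_nonneg (mul_nonneg ha' hwt) hX0) (by linarith)
      nlinarith
    by_cases hm' : (A m' * n + B m').Prime
    · have hav2 : ∀ p, e p ≠ some m ∧ e p ≠ some m' := fun p => ⟨hav m hm p, hav m' hm' p⟩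
      have h3 := hX2 hav2
      rw [hz e hav2] at h3
      have h4 : wt 1 a n * FF (prP W R) y e ^ 2 * (lam (A m * n + B m) * lam (A m' * n + B m')) ≤
          wt 1 a n * FF (prP W R) y e ^ 2 * (lam (A m * n + B m) * a') := by
        refine mul_le_mul_of_nonneg_left (mul_le_mul_of_nonneg_left hlm' hl0) ?_
        positivity
      have h5 : 0 ≤ a' * (wt 1 a n * lam (A m * n + B m)) * (T / 2) := by positivity
      rw [h3] at key ⊢
      nlinarith
    · have h6 : lam (A m' * n + B m') = 0 := by rw [lam, if_neg hm']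
      rw [h6, mul_zero, mul_zero]
      refine le_trans ?_ key
      positivity
  · have h6 : lam (A m * n + B m) = 0 := by rw [lam, if_neg hm]
    rw [h6]
    simp only [zero_mul, mul_zero, zero_add]
    positivity

end Pool.Agent.MK
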